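import Pool.Agent.SGK.Stmts

set_option autoImplicit false

namespace Pool.Agent.SGK.H2

open Pool.Agent.SGE Pool.Agent.SGK

/-- the three positions of a contour vertex `u` relative to a good vertex `z` -/
def Pos3 {V : Type} (X Y : V → V → Prop) (z u : V) : Prop :=
  (X u z ∧ ¬ Y z u) ∨ (X z u ∧ ¬ Y z u) ∨ (Y z u ∧ ¬ X z u ∧ ¬ X u z)

theorem zonInv (hCb : CbStmt) (hKir : KirStmt) (hKxm : KxmStmt) (hStp : StpStmt)
    {V : Type} {a b : V} {C : List V} {S : List (V × List V)} (hCan : Can a b C S) :
    (∀ z ℓ, (z, ℓ) ∈ S → ∃ m ∈ C, z = m ∨ HY S z m) ∧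
    (∀ z, Gd S z → ∀ u ∈ C, u ≠ z → Pos3 (HX a b S) (HY S) z u) ∧
    (∀ z w, z ≠ w → Gd S z → Gd S w →
      (HX a b S z w ∨ HX a b S w z ∨ HY S z w ∨ HY S w z) ∧
      ¬ ((HX a b S z w ∨ HX a b S w z) ∧ (HY S z w ∨ HY S w z))) := by
  induction hCan with
  | base h =>
    refine ⟨?_, ?_, ?_⟩
    · intro z ℓ hz
      simp at hz
    · rintro z ⟨⟨ℓ, hz⟩, -⟩
      simp at hz
    · rintro z w - ⟨⟨ℓ, hz⟩, -⟩
      simp at hz
  | @step P Q mid p q v S h ha hb hv ih =>
    obtain ⟨I1, I2, I3⟩ := ih
    have hCan' : Can a b (P ++ p :: v :: q :: Q) ((v, p :: (mid ++ [q])) :: S) :=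
      Can.step h ha hb hv
    obtain ⟨s1, s2, s3, s4, s5, s6⟩ := hStp h ha hb hv
    obtain ⟨kx, ky⟩ := hKir h
    obtain ⟨kx', ky'⟩ := hKir hCan'
    have hpw := hKxm h
    have hpw' := hKxm hCan'
    obtain ⟨-, -, -, hcon, -, hS⟩ := hCb h
    have xtr : ∀ {x y z : V}, HX a b S x y → HX a b S y z → HX a b S x z :=
      fun h1 h2 => Relation.TransGen.trans h1 h2
    -- `v` is not in the old contour
    have hvC : ∀ u ∈ P ++ p :: (mid ++ q :: Q), u ≠ v := by
      intro u hu huv
      rcases hcon u hu with h1 | h1 | ⟨z, hz, h1⟩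
      · exact ha (huv ▸ h1)
      · exact hb (huv ▸ h1)
      · exact hv z hz (h1.trans huv)
    have hpv : p ≠ v := hvC p (by simp)
    have hqv : q ≠ v := hvC q (by simp)
    have hmv : ∀ m ∈ mid, m ≠ v := fun m hm => hvC m (by simp [hm])
    -- old contour pairs
    obtain ⟨pwP, pwR, pwX⟩ := List.pairwise_append.1 hpw
    have pwR1 := List.pairwise_cons.1 pwR
    obtain ⟨pwM, pwQ, pwMQ⟩ := List.pairwise_append.1 pwR1.2
    have pwQ1 := List.pairwise_cons.1 pwQ
    have hPp : ∀ m ∈ P, HX a b S m p := fun m hm => pwX m hm p (by simp)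
    have hpm : ∀ m ∈ mid, HX a b S p m := fun m hm => pwR1.1 m (by simp [hm])
    have hpq : HX a b S p q := pwR1.1 q (by simp)
    have hmq : ∀ m ∈ mid, HX a b S m q := fun m hm => pwMQ m hm q (by simp)
    have hqQ : ∀ m ∈ Q, HX a b S q m := fun m hm => pwQ1.1 m hm
    -- new contour pairs
    obtain ⟨-, pwR', pwX'⟩ := List.pairwise_append.1 hpw'
    have pwR1' := List.pairwise_cons.1 pwR'
    have pwR2' := List.pairwise_cons.1 pwR1'.2
    -- good vertices
    have gd : ∀ z, z ≠ v → Gd ((v, p :: (mid ++ [q])) :: S) z → Gd S z ∧ z ≠ p ∧ z ≠ q := by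
      rintro z hzv ⟨⟨ℓ, hℓ⟩, hL, hR⟩
      refine ⟨⟨?_, ?_, ?_⟩, ?_, ?_⟩
      · rcases List.mem_cons.1 hℓ with h1 | h1
        · exact absurd (Prod.mk.inj h1).1 hzv
        · exact ⟨ℓ, h1⟩
      · rintro ⟨x, hx, h1⟩
        exact hL ⟨x, List.mem_cons_of_mem _ hx, h1⟩
      · rintro ⟨x, hx, h1⟩
        exact hR ⟨x, List.mem_cons_of_mem _ hx, h1⟩
      · intro h1
        exact hL ⟨_, List.mem_cons_self, by simp [h1]⟩
      · intro h1
        refine hR ⟨_, List.mem_cons_self, ?_⟩
        show (p :: (mid ++ [q])).getLast? = some z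
        rw [← List.cons_append, List.getLast?_concat, h1]
    -- the position of a contour vertex excludes `Y` together with `X`
    have excl : ∀ z, Gd S z → ∀ m ∈ P ++ p :: (mid ++ q :: Q),
        (HX a b S m z ∨ HX a b S z m) → ¬ (z = m ∨ HY S z m) := by
      intro z hz m hm hx hzm
      rcases hzm with rfl | hy
      · rcases hx with hx | hx <;> exact kx _ hx
      · have hne : m ≠ z := by
          rintro rfl
          exact ky _ hy
        rcases I2 z hz m hm hne with h1 | h1 | h1
        · exact h1.2 hy
        · exact h1.2 hy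
        · rcases hx with hx | hx
          · exact h1.2.2 hx
          · exact h1.2.1 hx
    have KEY : ∀ z, z ≠ v → Gd ((v, p :: (mid ++ [q])) :: S) z →
        Pos3 (HX a b ((v, p :: (mid ++ [q])) :: S)) (HY ((v, p :: (mid ++ [q])) :: S)) z v := by
      intro z hzv hz
      obtain ⟨hg, hzp, hzq⟩ := gd z hzv hz
      have hp3 := I2 z hg p (by simp) (Ne.symm hzp)
      have hq3 := I2 z hg q (by simp) (Ne.symm hzq)
      by_cases hA : HX a b S q z
      · -- (a)
        left
        refine ⟨(s3 z hzv).2 (Or.inr hA), ?_⟩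
        intro hy
        obtain ⟨m, hm, hzm⟩ := (s5 z).1 hy
        have hmz : HX a b S m z := by
          rcases List.mem_cons.1 hm with rfl | hm
          · exact xtr hpq hA
          · rcases List.mem_append.1 hm with hm | hm
            · exact xtr (hmq m hm) hA
            · rw [List.mem_singleton.1 hm]
              exact hA
        refine excl z hg m ?_ (Or.inl hmz) hzm
        simp only [List.mem_cons, List.mem_append, List.not_mem_nil, or_false] at hm ⊢
        tauto
      · by_cases hB : HX a b S z p
        · -- (b)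
          right; left
          refine ⟨(s2 z hzv).2 (Or.inr hB), ?_⟩
          intro hy
          obtain ⟨m, hm, hzm⟩ := (s5 z).1 hy
          have hmz : HX a b S z m := by
            rcases List.mem_cons.1 hm with rfl | hm
            · exact hB
            · rcases List.mem_append.1 hm with hm | hm
              · exact xtr hB (hpm m hm)
              · rw [List.mem_singleton.1 hm]
                exact xtr hB hpq
          refine excl z hg m ?_ (Or.inr hmz) hzm
          simp only [List.mem_cons, List.mem_append, List.not_mem_nil, or_false] at hm ⊢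
          tauto
        · -- (c)
          right; right
          refine ⟨?_, ?_, ?_⟩
          · rcases hp3 with h1 | h1 | h1
            · rcases hq3 with h2 | h2 | h2
              · exact absurd h2.1 hA
              · obtain ⟨⟨ℓ, hℓ⟩, -⟩ := id hg
                obtain ⟨m, hm, hzm⟩ := I1 z ℓ hℓ
                have hmm : m ∈ mid := by
                  rcases List.mem_append.1 hm with h3 | h3
                  · exact absurd hzm (excl z hg m hm (Or.inl (xtr (hPp m h3) h1.1)))
                  · rcases List.mem_cons.1 h3 with h3 | h3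
                    · exact absurd hzm (excl z hg m hm (Or.inl (h3 ▸ h1.1)))
                    · rcases List.mem_append.1 h3 with h3 | h3
                      · exact h3
                      · rcases List.mem_cons.1 h3 with h3 | h3
                        · exact absurd hzm (excl z hg m hm (Or.inr (h3 ▸ h2.1)))
                        · exact absurd hzm (excl z hg m hm (Or.inr (xtr h2.1 (hqQ m h3))))
                exact (s5 z).2 ⟨m, by simp [hmm], hzm⟩
              · exact (s5 z).2 ⟨q, by simp, Or.inr h2.1⟩
            · exact absurd h1.1 hB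
            · exact (s5 z).2 ⟨p, by simp, Or.inr h1.1⟩
          · intro hx
            rcases (s2 z hzv).1 hx with h1 | h1
            · exact hzp h1
            · exact hB h1
          · intro hx
            rcases (s3 z hzv).1 hx with h1 | h1
            · exact hzq h1
            · exact hA h1
    refine ⟨?_, ?_, ?_⟩
    · -- (I1)
      intro z ℓ hz
      by_cases hzv : z = v
      · exact ⟨v, by simp, Or.inl hzv⟩
      · have hz' : (z, ℓ) ∈ S := by
          rcases List.mem_cons.1 hz with h1 | h1
          · exact absurd (Prod.mk.inj h1).1 hzv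
          · exact h1
        obtain ⟨m, hm, hzm⟩ := I1 z ℓ hz'
        by_cases hmm : m ∈ mid
        · exact ⟨v, by simp, Or.inr ((s5 z).2 ⟨m, by simp [hmm], hzm⟩)⟩
        · refine ⟨m, ?_, ?_⟩
          · simp only [List.mem_cons, List.mem_append] at hm ⊢
            tauto
          · rcases hzm with h1 | h1
            · exact Or.inl h1
            · exact Or.inr ((s4 z m hzv (hvC m hm)).2 h1)
    · -- (I2)
      intro z hz u hu huz
      by_cases hzv : z = v
      · subst hzv
        rcases List.mem_append.1 hu with h1 | h1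
        · exact Or.inl ⟨pwX' u h1 z (by simp), s6 u⟩
        · rcases List.mem_cons.1 h1 with h1 | h1
          · refine Or.inl ⟨?_, s6 u⟩
            rw [h1]
            exact pwR1'.1 z (by simp)
          · rcases List.mem_cons.1 h1 with h1 | h1
            · exact absurd h1 huz
            · exact Or.inr (Or.inl ⟨pwR2'.1 u h1, s6 u⟩)
      · by_cases huv : u = v
        · rw [huv]
          exact KEY z hzv hz
        · obtain ⟨hg, hzp, hzq⟩ := gd z hzv hz
          have hu' : u ∈ P ++ p :: (mid ++ q :: Q) := by
            simp only [List.mem_cons, List.mem_append] at hu ⊢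
            tauto
          rcases I2 z hg u hu' huz with h1 | h1 | h1
          · exact Or.inl ⟨(s1 u z huv hzv).2 h1.1, fun h2 => h1.2 ((s4 z u hzv huv).1 h2)⟩
          · exact Or.inr (Or.inl ⟨(s1 z u hzv huv).2 h1.1,
              fun h2 => h1.2 ((s4 z u hzv huv).1 h2)⟩)
          · exact Or.inr (Or.inr ⟨(s4 z u hzv huv).2 h1.1,
              fun h2 => h1.2.1 ((s1 z u hzv huv).1 h2),
              fun h2 => h1.2.2 ((s1 u z huv hzv).1 h2)⟩)
    · -- (I3)
      intro z w hzw hz hw
      by_cases hzv : z = v
      · subst hzv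
        have hwv : w ≠ z := Ne.symm hzw
        have hno := s6 w
        rcases KEY w hwv hw with h1 | h1 | h1
        · refine ⟨Or.inl h1.1, ?_⟩
          rintro ⟨-, h2 | h2⟩
          · exact hno h2
          · exact h1.2 h2
        · refine ⟨Or.inr (Or.inl h1.1), ?_⟩
          rintro ⟨-, h2 | h2⟩
          · exact hno h2
          · exact h1.2 h2
        · refine ⟨Or.inr (Or.inr (Or.inr h1.1)), ?_⟩
          rintro ⟨h2 | h2, -⟩
          · exact h1.2.2 h2
          · exact h1.2.1 h2
      · by_cases hwv : w = v
        · subst hwv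
          have hno := s6 z
          rcases KEY z hzv hz with h1 | h1 | h1
          · refine ⟨Or.inr (Or.inl h1.1), ?_⟩
            rintro ⟨-, h2 | h2⟩
            · exact h1.2 h2
            · exact hno h2
          · refine ⟨Or.inl h1.1, ?_⟩
            rintro ⟨-, h2 | h2⟩
            · exact h1.2 h2
            · exact hno h2
          · refine ⟨Or.inr (Or.inr (Or.inl h1.1)), ?_⟩
            rintro ⟨h2 | h2, -⟩
            · exact h1.2.1 h2
            · exact h1.2.2 h2
        · obtain ⟨hg, -, -⟩ := gd z hzv hz
          obtain ⟨hg', -, -⟩ := gd w hwv hw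
          have h0 := I3 z w hzw hg hg'
          rw [s1 z w hzv hwv, s1 w z hwv hzv, s4 z w hzv hwv, s4 w z hwv hzv]
          exact h0

theorem zon (hCb : CbStmt) (hKir : KirStmt) (hKxm : KxmStmt) (hStp : StpStmt) : ZonStmt := by
  intro V a b C S hCan
  exact (zonInv hCb hKir hKxm hStp hCan).2.2

end Pool.Agent.SGK.H2
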